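import Mathlib
import Pool.Agent.R125.CplD

/-!
# The number of subword complexity sequences over a `k`-letter alphabet is subexponential
-/

set_option autoImplicit false

open Filter Topology

namespace Pool.Agent.Results.MP_c3017e_co.Subexponential

open Pool.Agent.R125.Cpl

/-- `a_k(n)`: the number of subword complexity sequences of words of length `n` over `k` letters. -/
noncomputable def a (k n : ℕ) : ℕ := (Seqs (Fin k) n).ncard

/-- **The conjectured asymptotics fails for every `k ≥ 2`**: `a_k(n) = exp(o(n))`, even uniformly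
in `k`, so that `a_k(n) / (log₂ k · 2^{n/2})` tends to `0` and not to `1`. -/
theorem result :
    (∀ k : ℕ, 2 ≤ k →
      Tendsto (fun n : ℕ => (a k n : ℝ) / (Real.logb 2 k * 2 ^ ((n : ℝ) / 2))) atTop (𝓝 0) ∧
      ¬ Tendsto (fun n : ℕ => (a k n : ℝ) / (Real.logb 2 k * 2 ^ ((n : ℝ) / 2))) atTop (𝓝 1) ∧
      Tendsto (fun n : ℕ => Real.log (a k n) / n) atTop (𝓝 0)) ∧
    ∀ η : ℝ, 0 < η → ∃ N : ℕ, ∀ n : ℕ, N ≤ n → ∀ k : ℕ, (a k n : ℝ) ≤ Real.exp (η * n) := by
  refine ⟨fun k hk => ?_, fun η hη => ?_⟩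
  · have hk' : (1 : ℝ) < k := by exact_mod_cast hk
    have hlog : 0 < Real.logb 2 (k : ℝ) := Real.logb_pos (by norm_num) hk'
    have h := ratio_tendsto (Fin k) hlog
    have : Nonempty (Fin k) := ⟨⟨0, by omega⟩⟩
    exact ⟨h, fun h1 => zero_ne_one (tendsto_nhds_unique h h1), log_tendsto (Fin k)⟩
  · obtain ⟨N, hN⟩ := main_bound hη
    exact ⟨N, fun n hn k => hN n hn (Fin k)⟩

end Pool.Agent.Results.MP_c3017e_co.Subexponential
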